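import Pool.Agent.Lib.lead.CXGraphRed

/-!
# Two edge-disjoint perfect matchings, the first one monochromatic: definitions and membership in NP
-/

namespace Pool.Agent.Run7.h878.CM

open Pool.Agent.Lib.CX

/-- A 2-edge-coloured bipartite graph as an input: `(U, V, A, B)`, the sizes of the two classes in unary, a list of
pairs `A` (the edges of colour 1) and a list of pairs `B` (the other edges, of colour 2). -/
abbrev Inst := List Unit × List Unit × List (ℕ × ℕ) × List (ℕ × ℕ)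

/-- number of vertices in the first class -/
abbrev Inst.p (a : Inst) : ℕ := a.1.length
/-- number of vertices in the second class -/
abbrev Inst.q (a : Inst) : ℕ := a.2.1.length

/-- `uv` is an edge of the bipartite graph -/
def Inst.edge (a : Inst) (u : Fin a.p) (v : Fin a.q) : Prop := (u.1, v.1) ∈ a.2.2.1 ∨ (u.1, v.1) ∈ a.2.2.2
/-- `uv` is an edge of colour 1 -/
def Inst.one (a : Inst) (u : Fin a.p) (v : Fin a.q) : Prop := (u.1, v.1) ∈ a.2.2.1

/-- `M` is a perfect matching of the bipartite graph `a` -/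
def PerfMatch (a : Inst) (M : Set (Fin a.p × Fin a.q)) : Prop :=
  (∀ e ∈ M, a.edge e.1 e.2) ∧ (∀ u, ∃! v, (u, v) ∈ M) ∧ ∀ v, ∃! u, (u, v) ∈ M

/-- There are edge-disjoint perfect matchings `M₁` and `M₂` such that all edges of `M₁` have colour 1. -/
def ColPM (a : Inst) : Prop :=
  ∃ M₁ M₂ : Set (Fin a.p × Fin a.q), PerfMatch a M₁ ∧ PerfMatch a M₂ ∧ Disjoint M₁ M₂ ∧ ∀ e ∈ M₁, a.one e.1 e.2

theorem perfMatch_iff (a : Inst) (M : Set (Fin a.p × Fin a.q)) :
    PerfMatch a M ↔ ∃ f : Fin a.p ≃ Fin a.q, (∀ u, a.edge u (f u)) ∧ M = {e | f e.1 = e.2} := by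
  constructor
  · rintro ⟨h1, h2, h3⟩
    choose f hf hf' using h2
    choose g hg hg' using h3
    refine ⟨⟨f, g, fun u => (hg' _ _ (hf u)).symm, fun v => (hf' _ _ (hg v)).symm⟩, fun u => h1 _ (hf u), ?_⟩
    ext ⟨u, v⟩
    constructor
    · exact fun h => (hf' _ _ h).symm
    · rintro (rfl : f u = v)
      exact hf u
  · rintro ⟨f, h1, rfl⟩
    refine ⟨?_, fun u => ⟨f u, rfl, fun v h => h.symm⟩, fun v => ⟨f.symm v, by simp, fun u h => ?_⟩⟩
    · rintro ⟨u, v⟩ (rfl : f u = v)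
      exact h1 u
    · have : f u = v := h
      rw [← this, Equiv.symm_apply_apply]

theorem colPM_iff (a : Inst) : ColPM a ↔ ∃ f g : Fin a.p ≃ Fin a.q,
    ∀ u, a.one u (f u) ∧ a.edge u (g u) ∧ f u ≠ g u := by
  constructor
  · rintro ⟨M₁, M₂, h1, h2, h3, h4⟩
    obtain ⟨f, hf, rfl⟩ := (perfMatch_iff a _).1 h1
    obtain ⟨g, hg, rfl⟩ := (perfMatch_iff a _).1 h2
    refine ⟨f, g, fun u => ⟨h4 (u, f u) rfl, hg u, fun h => ?_⟩⟩
    exact Set.disjoint_left.1 h3 (show (u, f u) ∈ {e : Fin a.p × Fin a.q | f e.1 = e.2} from rfl) h.symm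
  · rintro ⟨f, g, h⟩
    refine ⟨_, _, (perfMatch_iff a _).2 ⟨f, fun u => .inl (h u).1, rfl⟩, (perfMatch_iff a _).2 ⟨g, fun u => (h u).2.1, rfl⟩,
      Set.disjoint_left.2 ?_, ?_⟩
    · rintro ⟨u, v⟩ (h1 : f u = v) (h2 : g u = v)
      exact (h u).2.2 (h1.trans h2.symm)
    · rintro ⟨u, v⟩ (rfl : f u = v)
      exact (h u).1

/-- the check of a certificate -/
def Check (a : Inst) (c : List ℕ × List ℕ) : Prop :=
  a.p = a.q ∧ ∀ u < a.p, c.1.getD u a.q < a.q ∧ c.2.getD u a.q < a.q ∧ (u, c.1.getD u a.q) ∈ a.2.2.1 ∧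
    ((u, c.2.getD u a.q) ∈ a.2.2.1 ∨ (u, c.2.getD u a.q) ∈ a.2.2.2) ∧ c.1.getD u a.q ≠ c.2.getD u a.q ∧
    ∀ w < a.p, (c.1.getD u a.q = c.1.getD w a.q → u = w) ∧ (c.2.getD u a.q = c.2.getD w a.q → u = w)

instance (a c) : Decidable (Check a c) := by unfold Check; infer_instance

theorem colPM_inNP : InNP ColPM := by
  refine InNP.of_cert' (γ := List ℕ × List ℕ) Check (i := fun _ _ => inferInstance)
    (fun a => (a.p * (3 * a.q + 3) + 2) + (a.p * (3 * a.q + 3) + 2) + 1) ?_ (by fun_prop) (fun a c h => ?_) fun a h => ?_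
  · unfold Check; fun_prop
  · obtain ⟨h1, h⟩ := h
    rw [colPM_iff]
    let f : Fin a.p → Fin a.q := fun u => ⟨c.1.getD u a.q, (h u u.2).1⟩
    let g : Fin a.p → Fin a.q := fun u => ⟨c.2.getD u a.q, (h u u.2).2.1⟩
    have hf : Function.Injective f := fun u w e => Fin.ext (((h u u.2).2.2.2.2.2 w w.2).1 (congrArg Fin.val e))
    have hg : Function.Injective g := fun u w e => Fin.ext (((h u u.2).2.2.2.2.2 w w.2).2 (congrArg Fin.val e))
    have hc : Fintype.card (Fin a.p) = Fintype.card (Fin a.q) := by simpa using h1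
    refine ⟨Equiv.ofBijective f ((Fintype.bijective_iff_injective_and_card f).2 ⟨hf, hc⟩),
      Equiv.ofBijective g ((Fintype.bijective_iff_injective_and_card g).2 ⟨hg, hc⟩), fun u => ⟨(h u u.2).2.2.1,
      (h u u.2).2.2.2.1, fun e => (h u u.2).2.2.2.2.1 (congrArg Fin.val e)⟩⟩
  · obtain ⟨f, g, h⟩ := (colPM_iff a).1 h
    have hs : ∀ f : Fin a.p ≃ Fin a.q, size (List.ofFn fun u => (f u).1) ≤ a.p * (3 * a.q + 3) + 2 := fun f => by
      refine (size_list_le (B := 3 * a.q + 2) fun x hx => ?_).trans (by simp)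
      obtain ⟨u, rfl⟩ := (List.mem_ofFn' _ _).1 hx
      exact (size_nat_le _).trans (by have := (f u).2; show 3 * (f u).1 + 2 ≤ _; omega)
    have hv : ∀ f : Fin a.p ≃ Fin a.q, ∀ u : Fin a.p, (List.ofFn fun u => (f u).1).getD u a.q = f u := fun f u => by
      simp [List.getD_eq_getElem?_getD]
    refine ⟨(List.ofFn fun u => (f u).1, List.ofFn fun u => (g u).1), ?_, ?_, ?_⟩
    · rw [size_pair]
      exact Nat.add_le_add_right (Nat.add_le_add (hs f) (hs g)) 1
    · simpa using Fintype.card_congr f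
    · intro u hu
      obtain ⟨u, rfl⟩ : ∃ u' : Fin a.p, u'.1 = u := ⟨⟨u, hu⟩, rfl⟩
      simp only [hv]
      refine ⟨(f u).2, (g u).2, (h u).1, (h u).2.1, fun e => (h u).2.2 (Fin.ext e), fun w hw => ?_⟩
      obtain ⟨w, rfl⟩ : ∃ w' : Fin a.p, w'.1 = w := ⟨⟨w, hw⟩, rfl⟩
      simp only [hv]
      exact ⟨fun e => congrArg Fin.val (f.injective (Fin.ext e)), fun e => congrArg Fin.val (g.injective (Fin.ext e))⟩

end Pool.Agent.Run7.h878.CM
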