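import Pool.Agent.Run7.h878.CM.Defs

/-!
# NP-hardness

The first class consists of clause vertices and, for every variable `x`, the even vertices of a cycle; the second class
of clause vertices and the odd vertices of the cycles. The edges of colour 1 are the cycles and an edge for every
clause.
-/

namespace Pool.Agent.Run7.h878.CM

open Pool.Agent.Lib.CX

section named
variable {V : Type} [DecidableEq V] (ts : List V) (A B : List (V × V))

/-- the instance with both classes named by `ts` -/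
def mk : Inst :=
  (ts.dedup.map fun _ => (), ts.dedup.map fun _ => (), A.map fun e => (ts.dedup.idxOf e.1, ts.dedup.idxOf e.2),
    B.map fun e => (ts.dedup.idxOf e.1, ts.dedup.idxOf e.2))

theorem mk_p : (mk ts A B).p = ts.dedup.length := by simp [mk, Inst.p]
theorem mk_q : (mk ts A B).q = ts.dedup.length := by simp [mk, Inst.q]

/-- numbering of the names -/
def numE : Fin ts.dedup.length ≃ {x // x ∈ ts} where
  toFun i := ⟨ts.dedup[i.1], List.mem_dedup.1 (List.getElem_mem _)⟩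
  invFun x := ⟨ts.dedup.idxOf x.1, List.idxOf_lt_length_of_mem (List.mem_dedup.2 x.2)⟩
  left_inv i := Fin.ext ((List.nodup_dedup ts).idxOf_getElem _ _)
  right_inv x := Subtype.ext (List.getElem_idxOf _)

theorem idx_iff (x : V) (i : Fin ts.dedup.length) : ts.dedup.idxOf x = i.1 ↔ x = (numE ts i).1 := by
  constructor
  · intro h
    have hx : x ∈ ts := List.mem_dedup.1 (List.idxOf_lt_length_iff.1 (h ▸ i.2))
    have : (numE ts).symm ⟨x, hx⟩ = i := Fin.ext h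
    rw [← this, Equiv.apply_symm_apply]
  · rintro rfl
    exact congrArg Fin.val ((numE ts).left_inv i)

theorem mem_num (es : List (V × V)) (i j : Fin ts.dedup.length) :
    (i.1, j.1) ∈ es.map (fun e => (ts.dedup.idxOf e.1, ts.dedup.idxOf e.2)) ↔ ((numE ts i).1, (numE ts j).1) ∈ es := by
  simp only [List.mem_map, Prod.mk.injEq, idx_iff]
  constructor
  · rintro ⟨⟨a, b⟩, h, rfl, rfl⟩; exact h
  · exact fun h => ⟨_, h, rfl, rfl⟩

theorem mk_iff : ColPM (mk ts A B) ↔ ∃ f g : {x // x ∈ ts} ≃ {x // x ∈ ts},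
    ∀ u, (u.1, (f u).1) ∈ A ∧ ((u.1, (g u).1) ∈ A ∨ (u.1, (g u).1) ∈ B) ∧ f u ≠ g u := by
  rw [colPM_iff]
  let eP : Fin (mk ts A B).p ≃ {x // x ∈ ts} := (finCongr (mk_p ts A B)).trans (numE ts)
  let eQ : Fin (mk ts A B).q ≃ {x // x ∈ ts} := (finCongr (mk_q ts A B)).trans (numE ts)
  have h1 : ∀ u v, (mk ts A B).one u v ↔ ((eP u).1, (eQ v).1) ∈ A := fun u v =>
    mem_num ts A (finCongr (mk_p ts A B) u) (finCongr (mk_q ts A B) v)
  have h2 : ∀ u v, (mk ts A B).edge u v ↔ ((eP u).1, (eQ v).1) ∈ A ∨ ((eP u).1, (eQ v).1) ∈ B := fun u v =>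
    or_congr (h1 u v) (mem_num ts B (finCongr (mk_p ts A B) u) (finCongr (mk_q ts A B) v))
  constructor
  · rintro ⟨f, g, h⟩
    refine ⟨eP.symm.trans (f.trans eQ), eP.symm.trans (g.trans eQ), fun u => ?_⟩
    obtain ⟨h3, h4, h5⟩ := h (eP.symm u)
    rw [h1] at h3
    rw [h2] at h4
    simp only [Equiv.apply_symm_apply] at h3 h4
    exact ⟨h3, h4, fun e => h5 (eQ.injective e)⟩
  · rintro ⟨f, g, h⟩
    refine ⟨eP.trans (f.trans eQ.symm), eP.trans (g.trans eQ.symm), fun u => ?_⟩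
    obtain ⟨h3, h4, h5⟩ := h (eP u)
    rw [h1, h2]
    simp only [Equiv.trans_apply, Equiv.apply_symm_apply]
    exact ⟨h3, h4, fun e => h5 (eQ.symm.injective e)⟩

end named

variable (φ : List (Cl3 ℕ))

abbrev T := ℕ × ℕ × ℕ

/-- number of variables -/
abbrev nv : ℕ := 3 * φ.length
/-- half the length of a cycle -/
abbrev hl : ℕ := 6 * φ.length

/-- the names -/
def ts : List T := ((List.range φ.length).map fun k => (0, k, 0)) ++ (List.range (nv φ) ×ˢ List.range (hl φ)).map fun p => (1, p)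

/-- edges of colour 1 -/
def eA : List (T × T) :=
  ((List.range φ.length).map fun k => ((0, k, 0), (0, k, 0))) ++
    (((List.range (nv φ) ×ˢ List.range (hl φ)).map fun p => ((1, p), (1, p))) ++
      (List.range (nv φ) ×ˢ List.range (hl φ)).map fun p => ((1, p.1, (p.2 + 1) % hl φ), (1, p)))

/-- the numbered literals of a clause -/
def lits (C : Cl3 ℕ) : List (ℕ × ℕ × Bool) := [(0, C.1), (1, C.2.1), (2, C.2.2)]

/-- edges of colour 2 -/
def eB : List (T × T) :=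
  φ.zipIdx.flatMap fun q => (lits q.1).flatMap fun l =>
    [((0, q.2, 0), (1, l.2.1, 2 * (3 * q.2 + l.1))),
      ((1, l.2.1, 2 * (3 * q.2 + l.1) + (!l.2.2).toNat), (0, q.2, 0))]

theorem mem_ts (x : T) : x ∈ ts φ ↔ (∃ k < φ.length, x = (0, k, 0)) ∨ ∃ i < nv φ, ∃ j < hl φ, x = (1, i, j) := by
  simp only [ts, List.mem_append, List.mem_map, List.mem_product, List.mem_range, Prod.exists]
  constructor
  · rintro (⟨k, hk, rfl⟩ | ⟨i, j, ⟨h1, h2⟩, rfl⟩)
    · exact .inl ⟨k, hk, rfl⟩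
    · exact .inr ⟨i, h1, j, h2, rfl⟩
  · rintro (⟨k, hk, rfl⟩ | ⟨i, h1, j, h2, rfl⟩)
    · exact .inl ⟨k, hk, rfl⟩
    · exact .inr ⟨i, j, ⟨h1, h2⟩, rfl⟩

theorem mem_eA (x y : T) : (x, y) ∈ eA φ ↔ (∃ k < φ.length, x = (0, k, 0) ∧ y = (0, k, 0)) ∨
    (∃ i < nv φ, ∃ j < hl φ, x = (1, i, j) ∧ y = (1, i, j)) ∨
    ∃ i < nv φ, ∃ j < hl φ, x = (1, i, (j + 1) % hl φ) ∧ y = (1, i, j) := by
  simp only [eA, List.mem_append, List.mem_map, List.mem_product, List.mem_range, Prod.exists, Prod.mk.injEq]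
  constructor
  · rintro (⟨k, hk, rfl, rfl⟩ | ⟨i, j, ⟨h1, h2⟩, rfl, rfl⟩ | ⟨i, j, ⟨h1, h2⟩, rfl, rfl⟩)
    · exact .inl ⟨k, hk, rfl, rfl⟩
    · exact .inr (.inl ⟨i, h1, j, h2, rfl, rfl⟩)
    · exact .inr (.inr ⟨i, h1, j, h2, rfl, rfl⟩)
  · rintro (⟨k, hk, rfl, rfl⟩ | ⟨i, h1, j, h2, rfl, rfl⟩ | ⟨i, h1, j, h2, rfl, rfl⟩)
    · exact .inl ⟨k, hk, rfl, rfl⟩
    · exact .inr (.inl ⟨i, j, ⟨h1, h2⟩, rfl, rfl⟩)
    · exact .inr (.inr ⟨i, j, ⟨h1, h2⟩, rfl, rfl⟩)

theorem mem_eB (x y : T) : (x, y) ∈ eB φ ↔ ∃ k C, φ[k]? = some C ∧ ∃ l ∈ lits C,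
    (x = (0, k, 0) ∧ y = (1, l.2.1, 2 * (3 * k + l.1))) ∨
      (x = (1, l.2.1, 2 * (3 * k + l.1) + (!l.2.2).toNat) ∧ y = (0, k, 0)) := by
  simp only [eB, List.mem_flatMap, List.mem_cons, List.not_mem_nil, or_false, Prod.mk.injEq]
  constructor
  · rintro ⟨⟨C, k⟩, h1, l, h2, h3⟩
    rw [List.mk_mem_zipIdx_iff_getElem?] at h1
    exact ⟨k, C, h1, l, h2, h3⟩
  · rintro ⟨k, C, h1, l, h2, h3⟩
    exact ⟨(C, k), List.mk_mem_zipIdx_iff_getElem?.2 h1, l, h2, h3⟩

theorem lits_lt {C : Cl3 ℕ} {l : ℕ × ℕ × Bool} (h : l ∈ lits C) : l.1 < 3 := by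
  simp only [lits, List.mem_cons, List.not_mem_nil, or_false] at h
  rcases h with rfl | rfl | rfl <;> simp

theorem lits_inj {C : Cl3 ℕ} {l l' : ℕ × ℕ × Bool} (h : l ∈ lits C) (h' : l' ∈ lits C) (e : l.1 = l'.1) : l = l' := by
  simp only [lits, List.mem_cons, List.not_mem_nil, or_false] at h h'
  rcases h with rfl | rfl | rfl <;> rcases h' with rfl | rfl | rfl <;> simp_all

theorem ok_lits (v : ℕ → Bool) (C : Cl3 ℕ) : C.ok v ↔ ∃ l ∈ lits C, v l.2.1 = l.2.2 := by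
  simp [Cl3.ok, lits]

/-- the cyclic predecessor -/
def prd (n i : ℕ) : ℕ := (i + (n - 1)) % n

theorem prd_lt {n i : ℕ} (h : i < n) : prd n i < n := Nat.mod_lt _ (by omega)

theorem prd_succ {n i : ℕ} (h : i + 1 < n) : prd n (i + 1) = i := by
  have : i + 1 + (n - 1) = i + n := by omega
  rw [prd, this, Nat.add_mod_right, Nat.mod_eq_of_lt (by omega)]

theorem succ_prd {n i : ℕ} (h : i < n) : (prd n i + 1) % n = i := by
  rw [prd, Nat.mod_add_mod]
  have : i + (n - 1) + 1 = i + n := by omega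
  rw [this, Nat.add_mod_right, Nat.mod_eq_of_lt h]

theorem prd_succ_mod {n i : ℕ} (h : i < n) : prd n ((i + 1) % n) = i := by
  rw [prd, Nat.mod_add_mod]
  have : i + 1 + (n - 1) = i + n := by omega
  rw [this, Nat.add_mod_right, Nat.mod_eq_of_lt h]

/-! ### from matchings to an assignment -/

theorem backward (h : ∃ f g : {x // x ∈ ts φ} ≃ {x // x ∈ ts φ},
    ∀ u, (u.1, (f u).1) ∈ eA φ ∧ ((u.1, (g u).1) ∈ eA φ ∨ (u.1, (g u).1) ∈ eB φ) ∧ f u ≠ g u) : Sat3 φ := by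
  obtain ⟨f, g, h⟩ := h
  have hc : ∀ k < φ.length, ((0, k, 0) : T) ∈ ts φ := fun k hk => (mem_ts φ _).2 (.inl ⟨k, hk, rfl⟩)
  have he : ∀ i < nv φ, ∀ j < hl φ, ((1, i, j) : T) ∈ ts φ := fun i hi j hj =>
    (mem_ts φ _).2 (.inr ⟨i, hi, j, hj, rfl⟩)
  -- edges of colour 1 at a clause vertex and at a cycle vertex
  have hAc : ∀ k y, (((0, k, 0) : T), y) ∈ eA φ → y = (0, k, 0) := by
    intro k y hy
    rcases (mem_eA φ _ _).1 hy with ⟨k', -, h1, rfl⟩ | ⟨i, -, j, -, h1, -⟩ | ⟨i, -, j, -, h1, -⟩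
    · exact h1.symm
    · simp at h1
    · simp at h1
  have hAe : ∀ i j y, (((1, i, j) : T), y) ∈ eA φ → y = (1, i, j) ∨ y = (1, i, prd (hl φ) j) := by
    intro i j y hy
    rcases (mem_eA φ _ _).1 hy with ⟨k', -, h1, -⟩ | ⟨i, -, j, -, h1, rfl⟩ | ⟨i, -, j, hj, h1, rfl⟩
    · simp at h1
    · exact .inl h1.symm
    · right
      simp only [Prod.mk.injEq, true_and] at h1
      rw [h1.1, h1.2, prd_succ_mod hj]
  -- the phase of a cycle
  let P : ℕ → ℕ → Prop := fun i j => ∃ hi : i < nv φ, ∃ hj : j < hl φ, (f ⟨(1, i, j), he i hi j hj⟩).1 = (1, i, j)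
  have hP : ∀ i (hi : i < nv φ) j (hj : j < hl φ), ¬ P i j → (f ⟨(1, i, j), he i hi j hj⟩).1 = (1, i, prd (hl φ) j) := by
    intro i hi j hj hn
    rcases hAe _ _ _ (h ⟨(1, i, j), he i hi j hj⟩).1 with h1 | h1
    · exact absurd ⟨hi, hj, h1⟩ hn
    · exact h1
  have hstep : ∀ i < nv φ, ∀ j, j + 1 < hl φ → (P i j ↔ P i (j + 1)) := by
    intro i hi j hj
    have hj' : j < hl φ := by omega
    constructor
    · rintro ⟨_, _, h1⟩
      by_contra hn
      have h2 := hP i hi (j + 1) hj hn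
      rw [prd_succ hj] at h2
      have h3 := f.injective (Subtype.ext (h1.trans h2.symm))
      simp at h3
    · rintro ⟨_, _, h1⟩
      -- the odd vertex `j` is covered
      obtain ⟨⟨u, hu⟩, hfu⟩ := f.surjective ⟨(1, i, j), he i hi j hj'⟩
      have h2 := (h ⟨u, hu⟩).1
      rw [hfu] at h2
      rcases (mem_eA φ _ _).1 h2 with ⟨k', -, -, h3⟩ | ⟨i', -, j', -, h3, h4⟩ | ⟨i', -, j', hj', h3, h4⟩
      · simp at h3
      · simp only [Prod.mk.injEq, true_and] at h4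
        obtain ⟨rfl, rfl⟩ := h4
        simp only at h3
        subst h3
        exact ⟨hi, hj', congrArg Subtype.val hfu⟩
      · simp only [Prod.mk.injEq, true_and] at h4
        obtain ⟨rfl, rfl⟩ := h4
        simp only at h3
        rw [Nat.mod_eq_of_lt hj] at h3
        subst h3
        rw [hfu] at h1
        simp at h1
  have hP0 : ∀ i < nv φ, ∀ j < hl φ, (P i 0 ↔ P i j) := by
    intro i hi j
    induction j with
    | zero => intro _; rfl
    | succ j ih => intro hj; rw [ih (by omega), hstep i hi j hj]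
  classical
  refine ⟨fun i => decide (¬ P i 0), fun C hC => (ok_lits _ C).2 ?_⟩
  obtain ⟨k, hk, rfl⟩ := List.mem_iff_getElem.1 hC
  -- the partner of the clause vertex in the second matching
  have h1 := h ⟨(0, k, 0), hc k hk⟩
  have h2 : (f ⟨(0, k, 0), hc k hk⟩).1 = (0, k, 0) := hAc k _ h1.1
  have h3 : ∃ l ∈ lits φ[k], (g ⟨(0, k, 0), hc k hk⟩).1 = (1, l.2.1, 2 * (3 * k + l.1)) := by
    rcases h1.2.1 with h3 | h3
    · exact absurd (Subtype.ext (h2.trans (hAc k _ h3).symm)) h1.2.2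
    · obtain ⟨k', C', hC', l, hl, ⟨h4, h5⟩ | ⟨h4, -⟩⟩ := (mem_eB φ _ _).1 h3
      · simp only [Prod.mk.injEq, true_and, and_true] at h4
        subst h4
        obtain rfl : φ[k] = C' := Option.some_injective _ ((List.getElem?_eq_getElem hk).symm.trans hC')
        exact ⟨l, hl, h5⟩
      · simp at h4
  obtain ⟨l, hl', hg⟩ := h3
  refine ⟨l, hl', ?_⟩
  have hl3 := lits_lt hl'
  have hx : l.2.1 < nv φ ∧ 2 * (3 * k + l.1) < hl φ := by
    have := (g ⟨(0, k, 0), hc k hk⟩).2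
    rw [hg, mem_ts] at this
    rcases this with ⟨_, _, e⟩ | ⟨i, hi, j, hj, e⟩
    · simp at e
    · simp only [Prod.mk.injEq, true_and] at e
      rw [e.1, e.2]
      exact ⟨hi, hj⟩
  have hj1 : 2 * (3 * k + l.1) + 1 < hl φ := by have := hx.2; simp only [hl] at *; omega
  -- an edge of colour 2 at an even vertex of the block
  have hB : ∀ s : ℕ, s < 2 → ∀ y, (((1, l.2.1, 2 * (3 * k + l.1) + s) : T), y) ∈ eB φ → (!l.2.2).toNat = s := by
    intro s hs y hy
    obtain ⟨k', C', hC', l', hl'', ⟨h4, -⟩ | ⟨h4, -⟩⟩ := (mem_eB φ _ _).1 hy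
    · simp at h4
    · simp only [Prod.mk.injEq, true_and] at h4
      have h5 := lits_lt hl''
      have h6 : (!l'.2.2).toNat < 2 := by cases l'.2.2 <;> simp
      have h7 : k = k' ∧ l.1 = l'.1 ∧ s = (!l'.2.2).toNat := by omega
      obtain ⟨rfl, h8, rfl⟩ := h7
      obtain rfl : φ[k] = C' := Option.some_injective _ ((List.getElem?_eq_getElem hk).symm.trans hC')
      rw [lits_inj hl' hl'' h8]
  cases hs : l.2.2 with
  | true =>
    -- the even vertex after the odd one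
    have h4 := h ⟨(1, l.2.1, 2 * (3 * k + l.1) + 1), he _ hx.1 _ hj1⟩
    have h5 : (g ⟨(1, l.2.1, 2 * (3 * k + l.1) + 1), he _ hx.1 _ hj1⟩).1 = (1, l.2.1, 2 * (3 * k + l.1) + 1) := by
      rcases h4.2.1 with h5 | h5
      · rcases hAe _ _ _ h5 with h6 | h6
        · exact h6
        · rw [prd_succ hj1] at h6
          have := g.injective (Subtype.ext (hg.trans h6.symm))
          simp at this
      · have := hB 1 (by omega) _ h5
        simp [hs] at this
    have h6 : ¬ P l.2.1 (2 * (3 * k + l.1) + 1) := by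
      rintro ⟨_, _, h6⟩
      exact h4.2.2 (Subtype.ext (h6.trans h5.symm))
    rw [← hP0 _ hx.1 _ hj1] at h6
    simpa using h6
  | false =>
    have h4 := h ⟨(1, l.2.1, 2 * (3 * k + l.1)), he _ hx.1 _ hx.2⟩
    have h5 : (g ⟨(1, l.2.1, 2 * (3 * k + l.1)), he _ hx.1 _ hx.2⟩).1 = (1, l.2.1, prd (hl φ) (2 * (3 * k + l.1))) := by
      rcases h4.2.1 with h5 | h5
      · rcases hAe _ _ _ h5 with h6 | h6
        · have := g.injective (Subtype.ext (hg.trans h6.symm))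
          simp at this
        · exact h6
      · have := hB 0 (by omega) _ h5
        simp [hs] at this
    have h6 : P l.2.1 (2 * (3 * k + l.1)) := by
      by_contra hn
      exact h4.2.2 (Subtype.ext ((hP _ hx.1 _ hx.2 hn).trans h5.symm))
    rw [← hP0 _ hx.1 _ hx.2] at h6
    simpa using h6

/-! ### from an assignment to matchings -/

theorem prd_ne {n i : ℕ} (h : i < n) (hn : 2 ≤ n) : prd n i ≠ i := by
  intro e
  have h1 := succ_prd h
  rw [e] at h1
  by_cases h2 : i + 1 = n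
  · rw [h2, Nat.mod_self] at h1
    omega
  · rw [Nat.mod_eq_of_lt (by omega)] at h1
    omega

theorem mem_ts0 (k : ℕ) : ((0, k, 0) : T) ∈ ts φ ↔ k < φ.length := by
  rw [mem_ts]
  constructor
  · rintro (⟨k', hk, e⟩ | ⟨i, hi, j, hj, e⟩)
    · simp only [Prod.mk.injEq, true_and, and_true] at e
      omega
    · simp at e
  · exact fun h => .inl ⟨k, h, rfl⟩

theorem mem_ts1 (i j : ℕ) : ((1, i, j) : T) ∈ ts φ ↔ i < nv φ ∧ j < hl φ := by
  rw [mem_ts]
  constructor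
  · rintro (⟨k', hk, e⟩ | ⟨i', hi, j', hj, e⟩)
    · simp at e
    · simp only [Prod.mk.injEq, true_and] at e
      rw [e.1, e.2]
      exact ⟨hi, hj⟩
  · exact fun h => .inr ⟨i, h.1, j, h.2, rfl⟩

/-- rotation of the cycles of the variables with `b x = true` -/
def rotF (b : ℕ → Bool) (t : T) : T := if t.1 = 1 ∧ b t.2.1 = true then (1, t.2.1, prd (hl φ) t.2.2) else t
def rotI (b : ℕ → Bool) (t : T) : T := if t.1 = 1 ∧ b t.2.1 = true then (1, t.2.1, (t.2.2 + 1) % hl φ) else t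

theorem rot0 (b : ℕ → Bool) (k : ℕ) : rotF φ b (0, k, 0) = (0, k, 0) := by simp [rotF]
theorem rot1 (b : ℕ → Bool) (i j : ℕ) : rotF φ b (1, i, j) = if b i = true then (1, i, prd (hl φ) j) else (1, i, j) := by
  simp [rotF]

def rot (b : ℕ → Bool) : {x // x ∈ ts φ} ≃ {x // x ∈ ts φ} where
  toFun t := ⟨rotF φ b t.1, by
    rcases (mem_ts φ _).1 t.2 with ⟨k, hk, e⟩ | ⟨i, hi, j, hj, e⟩
    · rw [e, rot0, mem_ts0]; exact hk
    · rw [e, rot1]
      split
      · rw [mem_ts1]; exact ⟨hi, prd_lt hj⟩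
      · rw [mem_ts1]; exact ⟨hi, hj⟩⟩
  invFun t := ⟨rotI φ b t.1, by
    rcases (mem_ts φ _).1 t.2 with ⟨k, hk, e⟩ | ⟨i, hi, j, hj, e⟩
    · rw [e]; simpa [rotI, mem_ts0] using hk
    · rw [e]
      by_cases h : b i = true
      · simp only [rotI, h, and_self, if_true, mem_ts1]
        exact ⟨hi, Nat.mod_lt _ (by omega)⟩
      · have h2 : rotI φ b (1, i, j) = (1, i, j) := by simp [rotI, h]
        rw [h2, mem_ts1]
        exact ⟨hi, hj⟩⟩
  left_inv t := by
    obtain ⟨t, ht⟩ := t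
    apply Subtype.ext
    rcases (mem_ts φ _).1 ht with ⟨k, hk, rfl⟩ | ⟨i, hi, j, hj, rfl⟩
    · simp [rotF, rotI]
    · by_cases h : b i = true
      · simp [rotF, rotI, h, succ_prd hj]
      · simp [rotF, rotI, h]
  right_inv t := by
    obtain ⟨t, ht⟩ := t
    apply Subtype.ext
    rcases (mem_ts φ _).1 ht with ⟨k, hk, rfl⟩ | ⟨i, hi, j, hj, rfl⟩
    · simp [rotF, rotI]
    · by_cases h : b i = true
      · simp [rotF, rotI, h, prd_succ_mod hj]
      · simp [rotF, rotI, h]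

/-- exchange of the clause vertices with chosen cycle vertices -/
def swF (w : ℕ → T) (t : T) : T := if t.1 = 0 then w t.2.1 else if w (t.2.2 / 6) = t then (0, t.2.2 / 6, 0) else t

theorem forward (hφ : ∀ C ∈ φ, ∀ x ∈ C.vars, x < 3 * φ.length) (hs : Sat3 φ) :
    ∃ f g : {x // x ∈ ts φ} ≃ {x // x ∈ ts φ},
      ∀ u, (u.1, (f u).1) ∈ eA φ ∧ ((u.1, (g u).1) ∈ eA φ ∨ (u.1, (g u).1) ∈ eB φ) ∧ f u ≠ g u := by
  obtain ⟨v, hv⟩ := hs
  have h1 : ∀ k, ∃ l : ℕ × ℕ × Bool, ∀ hk : k < φ.length, l ∈ lits φ[k] ∧ v l.2.1 = l.2.2 := by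
    intro k
    by_cases hk : k < φ.length
    · obtain ⟨l, h1, h2⟩ := (ok_lits v _).1 (hv _ (List.getElem_mem hk))
      exact ⟨l, fun _ => ⟨h1, h2⟩⟩
    · exact ⟨(0, 0, false), fun h => absurd h hk⟩
  choose l hl1 using h1
  let w : ℕ → T := fun k => (1, (l k).2.1, 2 * (3 * k + (l k).1) + (!(l k).2.2).toNat)
  have hw6 : ∀ k < φ.length, (w k).2.2 / 6 = k := by
    intro k hk
    have h2 := lits_lt (hl1 k hk).1
    have h3 : (!(l k).2.2).toNat < 2 := by cases (l k).2.2 <;> simp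
    show (2 * (3 * k + (l k).1) + (!(l k).2.2).toNat) / 6 = k
    omega
  have hx : ∀ k < φ.length, (l k).2.1 < nv φ := by
    intro k hk
    refine hφ _ (List.getElem_mem hk) _ ?_
    have := (hl1 k hk).1
    simp only [lits, List.mem_cons, List.not_mem_nil, or_false] at this
    rcases this with e | e | e <;> rw [e] <;> simp [Cl3.vars]
  have hj : ∀ k < φ.length, 2 * (3 * k + (l k).1) + (!(l k).2.2).toNat < hl φ := by
    intro k hk
    have h2 := lits_lt (hl1 k hk).1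
    have h3 : (!(l k).2.2).toNat < 2 := by cases (l k).2.2 <;> simp
    simp only [hl]
    omega
  have hwm : ∀ k < φ.length, w k ∈ ts φ := fun k hk => (mem_ts1 φ _ _).2 ⟨hx k hk, hj k hk⟩
  have sw0 : ∀ k, swF w (0, k, 0) = w k := fun k => by simp [swF]
  have sww : ∀ k < φ.length, swF w (w k) = (0, k, 0) := fun k hk => by
    have h2 : (w k).1 ≠ 0 := by simp [w]
    rw [swF, if_neg h2, hw6 k hk, if_pos rfl]
  have sw1 : ∀ i j, w (j / 6) ≠ (1, i, j) → swF w (1, i, j) = (1, i, j) := fun i j h => by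
    rw [swF, if_neg (by simp)]
    exact if_neg h
  have hcase : ∀ t ∈ ts φ, (∃ k < φ.length, t = (0, k, 0)) ∨ (∃ k < φ.length, t = w k) ∨
      ∃ i < nv φ, ∃ j < hl φ, t = (1, i, j) ∧ w (j / 6) ≠ (1, i, j) := by
    intro t ht
    rcases (mem_ts φ _).1 ht with ⟨k, hk, rfl⟩ | ⟨i, hi, j, hj, rfl⟩
    · exact .inl ⟨k, hk, rfl⟩
    · by_cases h : w (j / 6) = (1, i, j)
      · refine .inr (.inl ⟨j / 6, ?_, h.symm⟩)
        simp only [hl] at hj
        omega
      · exact .inr (.inr ⟨i, hi, j, hj, rfl, h⟩)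
  let sw : {x // x ∈ ts φ} ≃ {x // x ∈ ts φ} := Function.Involutive.toPerm (fun t => ⟨swF w t.1, by
      rcases hcase _ t.2 with ⟨k, hk, e⟩ | ⟨k, hk, e⟩ | ⟨i, hi, j, hj, e, h⟩
      · rw [e, sw0]; exact hwm k hk
      · rw [e, sww k hk, mem_ts0]; exact hk
      · rw [e, sw1 _ _ h, mem_ts1]; exact ⟨hi, hj⟩⟩) (by
    rintro ⟨t, ht⟩
    apply Subtype.ext
    rcases hcase _ ht with ⟨k, hk, rfl⟩ | ⟨k, hk, rfl⟩ | ⟨i, hi, j, hj, rfl, h⟩
    · simp only [sw0, sww k hk]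
    · simp only [sw0, sww k hk]
    · simp only [sw1 _ _ h])
  have hsw : ∀ t, (sw t).1 = swF w t.1 := fun t => rfl
  have hrot : ∀ b t, (rot φ b t).1 = rotF φ b t.1 := fun b t => rfl
  have hA : ∀ b t, t ∈ ts φ → (t, rotF φ b t) ∈ eA φ := by
    intro b t ht
    rcases (mem_ts φ _).1 ht with ⟨k, hk, rfl⟩ | ⟨i, hi, j, hj, rfl⟩
    · rw [rot0, mem_eA]
      exact .inl ⟨k, hk, rfl, rfl⟩
    · rw [rot1, mem_eA]
      split
      · exact .inr (.inr ⟨i, hi, prd (hl φ) j, prd_lt hj, by rw [succ_prd hj], rfl⟩)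
      · exact .inr (.inl ⟨i, hi, j, hj, rfl, rfl⟩)
  refine ⟨rot φ v, sw.trans (rot φ fun x => !v x), fun t => ⟨hA v _ t.2, ?_, fun e => ?_⟩⟩
  · rw [Equiv.trans_apply, hrot, hsw]
    rcases hcase _ t.2 with ⟨k, hk, e⟩ | ⟨k, hk, e⟩ | ⟨i, hi, j, hj, e, h⟩
    · right
      rw [e, sw0, mem_eB]
      refine ⟨k, φ[k], List.getElem?_eq_getElem hk, l k, (hl1 k hk).1, .inl ⟨rfl, ?_⟩⟩
      show rotF φ _ (1, _, _) = _
      rw [rot1, (hl1 k hk).2]
      have h2 := hj k hk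
      cases hb : (l k).2.2 with
      | true => simp
      | false =>
        rw [hb] at h2
        simp only [Bool.not_false, if_true, Bool.toNat_true] at h2 ⊢
        rw [prd_succ h2]
    · right
      rw [e, sww k hk, rot0, mem_eB]
      exact ⟨k, φ[k], List.getElem?_eq_getElem hk, l k, (hl1 k hk).1, .inr ⟨rfl, rfl⟩⟩
    · left
      rw [e, sw1 _ _ h]
      exact hA _ _ ((mem_ts1 φ _ _).2 ⟨hi, hj⟩)
  · have e' := congrArg Subtype.val e
    rw [Equiv.trans_apply, hrot, hrot, hsw] at e'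
    rcases hcase _ t.2 with ⟨k, hk, e⟩ | ⟨k, hk, e⟩ | ⟨i, hi, j, hj, e, h⟩
    · rw [e, sw0, rot0] at e'
      simp only [w] at e'
      rw [rot1] at e'
      split at e' <;> simp at e'
    · rw [e, sww k hk, rot0] at e'
      simp only [w] at e'
      rw [rot1] at e'
      split at e' <;> simp at e'
    · rw [e, sw1 _ _ h, rot1, rot1] at e'
      have h2 : 2 ≤ hl φ := by simp only [hl] at *; omega
      have h3 := prd_ne hj h2
      cases hb : v i <;> simp [hb] at e' <;> omega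

theorem hard_iff (hφ : ∀ C ∈ φ, ∀ x ∈ C.vars, x < 3 * φ.length) :
    Sat3 φ ↔ ColPM (mk (ts φ) (eA φ) (eB φ)) := by
  rw [mk_iff]
  exact ⟨forward φ hφ, backward φ⟩

theorem colPM_hard : NPHard ColPM :=
  NPHard.of_sat3 (fun φ => mk (ts φ) (eA φ) (eB φ)) (by unfold mk ts eA eB lits nv hl; fun_prop) fun φ hφ => hard_iff φ hφ

end Pool.Agent.Run7.h878.CM
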